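import Pool.Agent.H870R4.Noz.Stmts

/-! Task Pres of project H870-NOZ. -/

set_option autoImplicit false

open MeasureTheory Set Filter Topology
open scoped ContDiff

namespace H870N.PresH133

lemma norm_grad (g : E2 → ℝ) (x : E2) : ‖gradient g x‖ = ‖fderiv ℝ g x‖ := by
  unfold gradient
  exact LinearIsometryEquiv.norm_map _ _

lemma grad_comp {f : ℝ → ℝ} {l : E2 → ℝ} {x : E2} (hf : DifferentiableAt ℝ f (l x))
    (hl : DifferentiableAt ℝ l x) :
    ‖gradient (fun y => f (l y)) x‖ ^ 2 = (deriv f (l x)) ^ 2 * ‖gradient l x‖ ^ 2 := by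
  have h : HasFDerivAt (fun y => f (l y)) (deriv f (l x) • fderiv ℝ l x) x :=
    hf.hasDerivAt.comp_hasFDerivAt x hl.hasFDerivAt
  rw [norm_grad, norm_grad, h.fderiv, norm_smul, mul_pow, Real.norm_eq_abs, sq_abs]

lemma grad_congr {f g : E2 → ℝ} {x : E2} (h : f =ᶠ[𝓝 x] g) : gradient f x = gradient g x := by
  unfold gradient
  rw [h.fderiv_eq]

lemma local_glue (ph F : ℝ × E2 → ℝ) (Q : E2 → ℝ) (T2 : ℝ) (V : Set E2) (hV : IsOpen V)
    (hF : ContDiffOn ℝ 1 F (Ioo 0 T2 ×ˢ V))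
    (heq : ∀ s ∈ Ioo 0 T2, ∀ y ∈ V, ph (s, y) = F (s, y))
    (hE : ∀ s ∈ Ioo 0 T2, ∀ x ∈ V, deriv (fun s => F (s, x)) s =
      1 / 2 * ‖gradient (fun y => F (s, y)) x‖ ^ 2 - Q x) :
    ∀ t ∈ Ioo (-(T2 / 2)) (T2 / 2), ∀ x ∈ V,
      ContDiffAt ℝ 1 (fun z : ℝ × E2 => ph (z.1 + T2 / 2, z.2)) (t, x) ∧
      deriv (fun s => ph (s + T2 / 2, x)) t =
        1 / 2 * ‖gradient (fun y => ph (t + T2 / 2, y)) x‖ ^ 2 - Q x := by
  intro t ht x hx
  have hs : t + T2 / 2 ∈ Ioo 0 T2 := ⟨by linarith [ht.1], by linarith [ht.2]⟩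
  constructor
  · have hopen : IsOpen (Ioo (-(T2 / 2)) (T2 / 2) ×ˢ V) := isOpen_Ioo.prod hV
    have hev : (fun z : ℝ × E2 => ph (z.1 + T2 / 2, z.2)) =ᶠ[𝓝 (t, x)]
        (fun z : ℝ × E2 => F (z.1 + T2 / 2, z.2)) := by
      filter_upwards [hopen.mem_nhds ⟨ht, hx⟩] with z hz
      exact heq _ ⟨by linarith [hz.1.1], by linarith [hz.1.2]⟩ _ hz.2
    refine ContDiffAt.congr_of_eventuallyEq ?_ hev
    have h1 : ContDiffAt ℝ 1 F (t + T2 / 2, x) :=
      hF.contDiffAt ((isOpen_Ioo.prod hV).mem_nhds ⟨hs, hx⟩)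
    have h2 : ContDiffAt ℝ 1 (fun z : ℝ × E2 => (z.1 + T2 / 2, z.2)) (t, x) := by
      exact (contDiffAt_fst.add contDiffAt_const).prodMk contDiffAt_snd
    exact ContDiffAt.comp (t, x) h1 h2
  · have hev1 : (fun s => ph (s + T2 / 2, x)) =ᶠ[𝓝 t] (fun s => F (s + T2 / 2, x)) := by
      filter_upwards [isOpen_Ioo.mem_nhds ht] with s hs'
      exact heq _ ⟨by linarith [hs'.1], by linarith [hs'.2]⟩ _ hx
    have hev2 : (fun y => ph (t + T2 / 2, y)) =ᶠ[𝓝 x] (fun y => F (t + T2 / 2, y)) := by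
      filter_upwards [hV.mem_nhds hx] with y hy
      exact heq _ hs _ hy
    rw [hev1.deriv_eq, grad_congr hev2]
    rw [deriv_comp_add_const (f := fun s => F (s, x))]
    exact hE _ hs x hx

lemma isOpen_band {O : Set E2} {l : E2 → ℝ} (hO : IsOpen O) (hl : ContinuousOn l O) (a b : ℝ) :
    IsOpen {x | x ∈ O ∧ a < l x ∧ l x < b} :=
  hl.isOpen_inter_preimage hO isOpen_Ioo

lemma isCompact_band {C : Set E2} {l : E2 → ℝ} (hC : IsCompact C) (hl : ContinuousOn l C)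
    (a b : ℝ) : IsCompact {x | x ∈ C ∧ a ≤ l x ∧ l x ≤ b} := by
  have h : IsClosed (C ∩ l ⁻¹' Icc a b) :=
    hl.preimage_isClosed_of_isClosed hC.isClosed isClosed_Icc
  exact hC.of_isClosed_subset h (fun x hx => hx.1)

theorem taskPres : TaskPres := by
  intro hHJ hLoc hPi hCut O O' l Q δ hδ hO hO' hcpt hsub hl1 hlS hQS heik hout
  obtain ⟨P1, P2, P, hP1, hP2, hP, hP1z, hP2z, hP1n, hP2n, hP1d, hP2d, hPpos, hPP1, hPP2⟩ :=
    hPi δ hδ
  have hpi := Real.pi_pos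
  have hlc : ContinuousOn l O := hl1.continuousOn
  have hO'O : O' ⊆ O := subset_closure.trans hsub
  -- the compact set and its neighbourhood
  have hKc := isCompact_band (l := l) hcpt (hlc.mono hsub) (-(3 * Real.pi / 4)) (7 * Real.pi / 4)
  set K : Set E2 := {x | x ∈ closure O' ∧ -(3 * Real.pi / 4) ≤ l x ∧ l x ≤ 7 * Real.pi / 4}
    with hK
  have hDo := isOpen_band hO hlc (-Real.pi) (2 * Real.pi)
  have hKD : K ⊆ {x | x ∈ O ∧ -Real.pi < l x ∧ l x < 2 * Real.pi} := by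
    rintro x ⟨h1, h2, h3⟩
    exact ⟨hsub h1, by linarith, by linarith⟩
  have hPl : ContDiffOn ℝ ∞ (fun x => P (l x)) {x | x ∈ O ∧ -Real.pi < l x ∧ l x < 2 * Real.pi} :=
    hP.comp hlS (fun x hx => ⟨hx.2.1, hx.2.2⟩)
  obtain ⟨Qt, hQt, hQtc, N1, hN1o, hKN1, hN1D, hQtN⟩ := hCut _ K Q hDo hKc hKD hQS
  obtain ⟨p0, hp0, hp0c, N2, hN2o, hKN2, hN2D, hp0N⟩ := hCut _ K _ hDo hKc hKD hPl
  obtain ⟨T0, U, hT0, hU1, hU0, hUeq⟩ := hHJ Qt p0 hQt hp0 hQtc hp0c
  -- stationary solutions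
  have hlD : ∀ x ∈ O, DifferentiableAt ℝ l x := fun x hx =>
    (hl1.contDiffAt (hO.mem_nhds hx)).differentiableAt (by norm_num)
  have hP1D : Differentiable ℝ P1 := hP1.differentiable (by norm_num)
  have hP2D : Differentiable ℝ P2 := hP2.differentiable (by norm_num)
  have hE1 : ∀ x ∈ O, l x ≤ 0 → 0 = 1 / 2 * ‖gradient (fun y => P1 (l y)) x‖ ^ 2 - Q x := by
    intro x hx hlx
    rw [grad_comp (hP1D _) (hlD x hx)]
    rcases lt_or_ge (l x) (-Real.pi) with h | h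
    · have hd : deriv P1 (l x) = 0 := by
        have : P1 =ᶠ[𝓝 (l x)] fun _ => (0 : ℝ) := by
          filter_upwards [isOpen_Iio.mem_nhds h] with s hs
          exact hP1z s (le_of_lt hs)
        rw [this.deriv_eq, deriv_const]
      rw [hd, hout x hx (Or.inl h)]
      ring
    · rw [hP1d _ h hlx, heik x hx h (by linarith)]
      ring
  have hE2 : ∀ x ∈ O, Real.pi ≤ l x → 0 = 1 / 2 * ‖gradient (fun y => P2 (l y)) x‖ ^ 2 - Q x := by
    intro x hx hlx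
    rw [grad_comp (hP2D _) (hlD x hx)]
    rcases lt_or_ge (2 * Real.pi) (l x) with h | h
    · have hd : deriv P2 (l x) = 0 := by
        have : P2 =ᶠ[𝓝 (l x)] fun _ => (0 : ℝ) := by
          filter_upwards [isOpen_Ioi.mem_nhds h] with s hs
          exact hP2z s (le_of_lt hs)
        rw [this.deriv_eq, deriv_const]
      rw [hd, hout x hx (Or.inr h)]
      ring
    · rw [hP2d _ hlx h, heik x hx (by linarith) h]
      ring
  have hC1 : ∀ (S : Set ℝ), ContDiffOn ℝ 1 (fun z : ℝ × E2 => P1 (l z.2)) (S ×ˢ O) := fun S =>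
    hP1.comp_contDiffOn (hl1.comp contDiffOn_snd (fun z hz => hz.2))
  have hC2 : ∀ (S : Set ℝ), ContDiffOn ℝ 1 (fun z : ℝ × E2 => P2 (l z.2)) (S ×ˢ O) := fun S =>
    hP2.comp_contDiffOn (hl1.comp contDiffOn_snd (fun z hz => hz.2))
  -- the first overlap
  obtain ⟨T1, hT1, hT1', hov1⟩ := hLoc
    ({x | x ∈ O ∧ -Real.pi < l x ∧ l x < -(Real.pi / 4)} ∩ (N1 ∩ N2)) Q
    (fun z => P1 (l z.2)) U T0 hT0
    ((isOpen_band hO hlc _ _).inter (hN1o.inter hN2o))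
    ((hC1 _).mono (prod_mono subset_rfl (fun x hx => hx.1.1)))
    (hU1.mono (prod_mono subset_rfl (subset_univ _)))
    (by
      intro t ht x hx
      show deriv (fun _ : ℝ => P1 (l x)) t = 1 / 2 * ‖gradient (fun y => P1 (l y)) x‖ ^ 2 - Q x
      rw [deriv_const]
      exact hE1 x hx.1.1 (by linarith [hx.1.2.2]))
    (by
      intro t ht x hx
      rw [hUeq t ⟨by linarith [ht.1], ht.2⟩ x, hQtN x hx.2.1])
    (by
      intro x hx
      show P1 (l x) = U (0, x)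
      rw [hU0, hp0N x hx.2.2, hPP1 _ hx.1.2.1 hx.1.2.2.le])
    {x | x ∈ closure O' ∧ -(3 * Real.pi / 4) ≤ l x ∧ l x ≤ -(Real.pi / 2)}
    (by
      rintro x ⟨h1, h2, h3⟩
      have hxK : x ∈ K := ⟨h1, h2, by linarith⟩
      exact ⟨⟨hsub h1, by linarith, by linarith⟩, hKN1 hxK, hKN2 hxK⟩)
    (isCompact_band hcpt (hlc.mono hsub) _ _)
  -- the second overlap
  obtain ⟨T1b, hT1b, hT1b', hov2⟩ := hLoc
    ({x | x ∈ O ∧ 5 * Real.pi / 4 < l x ∧ l x < 2 * Real.pi} ∩ (N1 ∩ N2)) Q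
    (fun z => P2 (l z.2)) U T0 hT0
    ((isOpen_band hO hlc _ _).inter (hN1o.inter hN2o))
    ((hC2 _).mono (prod_mono subset_rfl (fun x hx => hx.1.1)))
    (hU1.mono (prod_mono subset_rfl (subset_univ _)))
    (by
      intro t ht x hx
      show deriv (fun _ : ℝ => P2 (l x)) t = 1 / 2 * ‖gradient (fun y => P2 (l y)) x‖ ^ 2 - Q x
      rw [deriv_const]
      exact hE2 x hx.1.1 (by linarith [hx.1.2.1]))
    (by
      intro t ht x hx
      rw [hUeq t ⟨by linarith [ht.1], ht.2⟩ x, hQtN x hx.2.1])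
    (by
      intro x hx
      show P2 (l x) = U (0, x)
      rw [hU0, hp0N x hx.2.2, hPP2 _ hx.1.2.1.le hx.1.2.2])
    {x | x ∈ closure O' ∧ 3 * Real.pi / 2 ≤ l x ∧ l x ≤ 7 * Real.pi / 4}
    (by
      rintro x ⟨h1, h2, h3⟩
      have hxK : x ∈ K := ⟨h1, by linarith, h3⟩
      exact ⟨⟨hsub h1, by linarith, by linarith⟩, hKN1 hxK, hKN2 hxK⟩)
    (isCompact_band hcpt (hlc.mono hsub) _ _)
  -- positivity
  have hpos : ∃ ε : ℝ, 0 < ε ∧ ∀ s ∈ Ioo (-ε) ε, ∀ x ∈ K, 0 < U (s, x) := by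
    have hW : IsOpen ((Ioo (-T0) T0 ×ˢ (univ : Set E2)) ∩ U ⁻¹' Ioi 0) :=
      hU1.continuousOn.isOpen_inter_preimage (isOpen_Ioo.prod isOpen_univ) isOpen_Ioi
    obtain ⟨u, v, hu, hv, h0u, hKv, huv⟩ := generalized_tube_lemma
      (isCompact_singleton (x := (0 : ℝ))) hKc hW (by
        rintro ⟨s, x⟩ ⟨hs, hx⟩
        obtain rfl : s = 0 := hs
        refine ⟨⟨⟨by linarith, hT0⟩, mem_univ _⟩, ?_⟩
        show 0 < U (0, x)
        have hx' := hKD hx
        rw [hU0, hp0N x (hKN2 hx)]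
        exact hPpos _ hx'.2.1 hx'.2.2)
    obtain ⟨ε, hε, hball⟩ := Metric.isOpen_iff.mp hu 0 (h0u rfl)
    refine ⟨ε, hε, fun s hs x hx => ?_⟩
    have h1 : s ∈ u := hball (by
      rw [Metric.mem_ball, Real.dist_eq, sub_zero, abs_lt]
      exact hs)
    exact (huv ⟨h1, hKv hx⟩).2
  obtain ⟨ε, hε, hUpos⟩ := hpos
  -- the time interval
  obtain ⟨T2, hT2, hT2a, hT2b, hT2c⟩ : ∃ T2 : ℝ, 0 < T2 ∧ T2 ≤ T1 ∧ T2 ≤ T1b ∧ T2 ≤ ε :=
    ⟨min T1 (min T1b ε), lt_min hT1 (lt_min hT1b hε), min_le_left _ _,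
      (min_le_right _ _).trans (min_le_left _ _), (min_le_right _ _).trans (min_le_right _ _)⟩
  set ph : ℝ × E2 → ℝ := fun z =>
    if l z.2 < -(5 * Real.pi / 8) then P1 (l z.2)
    else if 13 * Real.pi / 8 < l z.2 then P2 (l z.2) else U z with hph
  have hA : ∀ s ∈ Ioo 0 T2, ∀ y ∈ {x | x ∈ O' ∧ l x < -(Real.pi / 2)},
      ph (s, y) = (fun z : ℝ × E2 => P1 (l z.2)) (s, y) := by
    intro s hs y hy
    simp only [hph]
    split_ifs with h1 h2
    · rfl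
    · have := hy.2
      exfalso
      linarith
    · exact (hov1 s ⟨hs.1.le, by linarith [hs.2]⟩ y
        ⟨subset_closure hy.1, by linarith, hy.2.le⟩).symm
  have hB : ∀ s ∈ Ioo 0 T2, ∀ y ∈ {x | x ∈ O' ∧ 3 * Real.pi / 2 < l x},
      ph (s, y) = (fun z : ℝ × E2 => P2 (l z.2)) (s, y) := by
    intro s hs y hy
    simp only [hph]
    split_ifs with h1 h2
    · have := hy.2
      exfalso
      linarith
    · rfl
    · exact (hov2 s ⟨hs.1.le, by linarith [hs.2]⟩ y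
        ⟨subset_closure hy.1, hy.2.le, by linarith⟩).symm
  have hC : ∀ s ∈ Ioo 0 T2, ∀ y ∈ {x | x ∈ O' ∧ -(3 * Real.pi / 4) < l x ∧ l x < 7 * Real.pi / 4},
      ph (s, y) = U (s, y) := by
    intro s hs y hy
    simp only [hph]
    split_ifs with h1 h2
    · exact hov1 s ⟨hs.1.le, by linarith [hs.2]⟩ y
        ⟨subset_closure hy.1, hy.2.1.le, by linarith⟩
    · exact hov2 s ⟨hs.1.le, by linarith [hs.2]⟩ y
        ⟨subset_closure hy.1, by linarith, hy.2.2.le⟩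
    · rfl
  have hlc' : ContinuousOn l O' := hlc.mono hO'O
  have hVA : IsOpen {x | x ∈ O' ∧ l x < -(Real.pi / 2)} :=
    hlc'.isOpen_inter_preimage hO' isOpen_Iio
  have hVB : IsOpen {x | x ∈ O' ∧ 3 * Real.pi / 2 < l x} :=
    hlc'.isOpen_inter_preimage hO' isOpen_Ioi
  have hVC : IsOpen {x | x ∈ O' ∧ -(3 * Real.pi / 4) < l x ∧ l x < 7 * Real.pi / 4} :=
    isOpen_band hO' hlc' _ _
  have gA := local_glue ph (fun z => P1 (l z.2)) Q T2 _ hVA
    ((hC1 _).mono (prod_mono subset_rfl (fun x hx => hO'O hx.1))) hA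
    (by
      intro s hs x hx
      show deriv (fun _ : ℝ => P1 (l x)) s = 1 / 2 * ‖gradient (fun y => P1 (l y)) x‖ ^ 2 - Q x
      rw [deriv_const]
      exact hE1 x (hO'O hx.1) (by linarith [hx.2]))
  have gB := local_glue ph (fun z => P2 (l z.2)) Q T2 _ hVB
    ((hC2 _).mono (prod_mono subset_rfl (fun x hx => hO'O hx.1))) hB
    (by
      intro s hs x hx
      show deriv (fun _ : ℝ => P2 (l x)) s = 1 / 2 * ‖gradient (fun y => P2 (l y)) x‖ ^ 2 - Q x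
      rw [deriv_const]
      exact hE2 x (hO'O hx.1) (by linarith [hx.2]))
  have gC := local_glue ph U Q T2 _ hVC
    (hU1.mono (prod_mono (fun s hs => ⟨by linarith [hs.1], by linarith [hs.2]⟩)
      (subset_univ _))) hC
    (by
      intro s hs x hx
      rw [hUeq s ⟨by linarith [hs.1], by linarith [hs.2]⟩ x,
        hQtN x (hKN1 ⟨subset_closure hx.1, hx.2.1.le, hx.2.2.le⟩)])
  have hall : ∀ t ∈ Ioo (-(T2 / 2)) (T2 / 2), ∀ x ∈ O',
      ContDiffAt ℝ 1 (fun z : ℝ × E2 => ph (z.1 + T2 / 2, z.2)) (t, x) ∧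
      deriv (fun s => ph (s + T2 / 2, x)) t =
        1 / 2 * ‖gradient (fun y => ph (t + T2 / 2, y)) x‖ ^ 2 - Q x := by
    intro t ht x hx
    rcases lt_or_ge (l x) (-(Real.pi / 2)) with h | h
    · exact gA t ht x ⟨hx, h⟩
    · rcases lt_or_ge (3 * Real.pi / 2) (l x) with h' | h'
      · exact gB t ht x ⟨hx, h'⟩
      · exact gC t ht x ⟨hx, by linarith, by linarith⟩
  refine ⟨T2 / 2, fun z => ph (z.1 + T2 / 2, z.2), by positivity, ?_, ?_, ?_, ?_⟩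
  · rintro ⟨t, x⟩ ⟨ht, hx⟩
    exact (hall t ht x hx).1.contDiffWithinAt
  · intro t ht x hx
    have hs : t + T2 / 2 ∈ Ioo 0 T2 := ⟨by linarith [ht.1], by linarith [ht.2]⟩
    simp only [hph]
    split_ifs with h1 h2
    · exact hP1n _
    · exact hP2n _
    · exact (hUpos _ ⟨by linarith [hs.1], by linarith [hs.2]⟩ x
        ⟨subset_closure hx, by linarith, by linarith⟩).le
  · intro t ht x hx hlx
    simp only [hph]
    rcases hlx with h | h
    · rw [if_pos (by linarith)]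
      exact hP1z _ h.le
    · rw [if_neg (by linarith), if_pos (by linarith)]
      exact hP2z _ h.le
  · intro t ht x hx
    exact (hall t ⟨by linarith [ht.1], ht.2⟩ x hx).2

end H870N.PresH133
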